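import Pool.Agent.Q245.Vk.Exact

/-!
# The truncated Vojta inequality for points of bounded degree: one pair of conjugate points suffices

`X` is the projective line over `ℚ`, and `D` is either `0 + 1 + ∞` or `∞ + {t² = δ}`, where `δ` is
`4 ^ j` times an odd integer, for example `δ = -1`, `5` or `-3`; in both cases `K_X + D` has degree
one. For the algebraic points of degree at most `r`, and more generally for the points in a set `A`
of algebraic numbers which contains `ℚ(x)` for all `x ∈ A`, the inequality of Vojta's conjecture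
with truncated counting function and discriminant term for the divisor `∞ + {t² = δ}` is equivalent
to the inequality for the divisor `0 + 1 + ∞`.
-/

set_option autoImplicit false

namespace Pool.Agent.Results.MP_44a246_nt.ConjugatePairBoundedDegree

open NumberField IntermediateField Height

/-- the field generated by an algebraic number is a number field -/
theorem numberField_adjoin (x : AlgebraicClosure ℚ) : NumberField ℚ⟮x⟯ :=
  Pool.Agent.Q245.Vk.nfa x

/-- the absolute logarithmic height of `x` -/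
noncomputable def height (x : AlgebraicClosure ℚ) : ℝ :=
  haveI := numberField_adjoin x
  logHeight₁ (AdjoinSimple.gen ℚ x) / (Module.finrank ℚ ℚ⟮x⟯ : ℝ)

/-- the logarithmic discriminant of `ℚ(x)` -/
noncomputable def logDisc (x : AlgebraicClosure ℚ) : ℝ :=
  haveI := numberField_adjoin x
  Real.log |(discr ℚ⟮x⟯ : ℝ)| / (Module.finrank ℚ ℚ⟮x⟯ : ℝ)

/-- the truncated counting function of `x` relative to `0 + 1 + ∞`: the sum of `log N(v)` over the
finite places `v` of `ℚ(x)` at which `x` or `1 - x` is not a unit, divided by `[ℚ(x) : ℚ]` -/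
noncomputable def countingThree (x : AlgebraicClosure ℚ) : ℝ :=
  haveI := numberField_adjoin x
  (∑ᶠ v ∈ {v : FinitePlace ℚ⟮x⟯ |
    ¬ (v (AdjoinSimple.gen ℚ x) = 1 ∧ v (1 - AdjoinSimple.gen ℚ x) = 1)},
    Real.log ((Ideal.absNorm v.maximalIdeal.asIdeal : ℕ) : ℝ)) / (Module.finrank ℚ ℚ⟮x⟯ : ℝ)

/-- the truncated counting function of `t` relative to `∞ + {t² = δ}`: the sum of `log N(v)` over
the finite places `v` of `ℚ(t)` with `|t|_v > 1` or `|t² - δ|_v < 1`, divided by `[ℚ(t) : ℚ]` -/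
noncomputable def countingPair (δ : ℤ) (t : AlgebraicClosure ℚ) : ℝ :=
  haveI := numberField_adjoin t
  (∑ᶠ v ∈ {v : FinitePlace ℚ⟮t⟯ |
    1 < v (AdjoinSimple.gen ℚ t) ∨ v (AdjoinSimple.gen ℚ t ^ 2 - (δ : ℚ⟮t⟯)) < 1},
    Real.log ((Ideal.absNorm v.maximalIdeal.asIdeal : ℕ) : ℝ)) / (Module.finrank ℚ ℚ⟮t⟯ : ℝ)

/-- the inequality for `0 + 1 + ∞` and the points in `A`: for all `ε > 0`,
`(1 - ε) h(x) ≤ N^(1)(x) + d(x) + O(1)` -/
def VojtaThree (A : Set (AlgebraicClosure ℚ)) : Prop :=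
  ∀ ε : ℝ, 0 < ε → ∃ C : ℝ, ∀ x ∈ A, x ≠ 0 → x ≠ 1 →
    (1 - ε) * height x ≤ countingThree x + logDisc x + C

/-- the inequality for `∞ + {t² = δ}` and the points in `A`: for all `ε > 0`,
`(1 - ε) h(t) ≤ N^(1)(t) + d(t) + O(1)` -/
def VojtaPair (δ : ℤ) (A : Set (AlgebraicClosure ℚ)) : Prop :=
  ∀ ε : ℝ, 0 < ε → ∃ C : ℝ, ∀ t ∈ A, t ^ 2 ≠ (δ : AlgebraicClosure ℚ) →
    (1 - ε) * height t ≤ countingPair δ t + logDisc t + C

/-- the algebraic numbers of degree at most `r` -/
def DegreeLE (r : ℕ) : Set (AlgebraicClosure ℚ) := {x | Module.finrank ℚ ℚ⟮x⟯ ≤ r}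

/-- `ℚ(x)` consists of numbers of degree at most `r` if `x` has degree at most `r` -/
theorem degreeLE_closed (r : ℕ) : ∀ x ∈ DegreeLE r, ∀ y ∈ ℚ⟮x⟯, y ∈ DegreeLE r :=
  Pool.Agent.Q245.Vk.closed_deg r

/-- Let `δ = 4 ^ j m` with `m` odd, and let `A` be a set of algebraic numbers such that `ℚ(x) ⊆ A`
for all `x ∈ A`, for instance the set `DegreeLE r` (`degreeLE_closed`), or a number field. The
inequality for `∞ + {t² = δ}` and the points in `A` is equivalent to the inequality for `0 + 1 + ∞`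
and the points in `A`. -/
theorem result (δ : ℤ) (j : ℕ) (m : ℤ) (hm : Odd m) (hδ : δ = 4 ^ j * m)
    (A : Set (AlgebraicClosure ℚ)) (hA : ∀ x ∈ A, ∀ y ∈ ℚ⟮x⟯, y ∈ A) :
    VojtaPair δ A ↔ VojtaThree A :=
  Pool.Agent.Q245.Vk.main_exact δ j m hm hδ A hA

/-- the case of the points of degree at most `r` -/
theorem bounded_degree (δ : ℤ) (j : ℕ) (m : ℤ) (hm : Odd m) (hδ : δ = 4 ^ j * m) (r : ℕ) :
    VojtaPair δ (DegreeLE r) ↔ VojtaThree (DegreeLE r) :=
  result δ j m hm hδ (DegreeLE r) (degreeLE_closed r)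

end Pool.Agent.Results.MP_44a246_nt.ConjugatePairBoundedDegree
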