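import Pool.Agent.Q58.FI.Vim

/-!
MP_44a246_nt, Q1: algebraic points of bounded degree on the finite images of covers of generic
complete intersections over function fields.

Let `k` be an algebraically closed field of characteristic zero, and `K` a function field of one
variable over `k`. Let `K0` be a subfield of `K` that is finitely generated over a subfield `k0` of
`k`, `V` a closed subset of `ℙⁿ` defined over `K0`, of dimension at most `m`, and `F_a` forms over
`K` of degrees `d_a`, for `a` in a finite set `A`, whose coefficients are all together algebraically
independent over `K0`. Let `X₀` be the part of `V` where all `F_a` vanish.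

Let `W = {Ψ = 0}` and `Y = {Φ = 0}` be projective varieties over `K`, with a morphism `B : W → X₀`
and a surjective morphism `G : W → Y` with fibres of at most `t` points. (The morphisms are given by
forms of the same positive degree over `K` without common zeros on `W`, so they are finite. For
example `W` can be a closed subvariety of `X₀` or of a finite cover of `X₀`, and `Y` its image in a
projective space under a finite morphism; `Y` has no morphism to `X₀` in general.)

If `2 m + 1 + r t ≤ ∑ (d_a + 1)`, then the heights of all points of `Y` over all extensions of `K`
of degree at most `r` are bounded.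

So if `Y` is smooth then for this `r` the conjecture holds for `Y`, for all normal crossings
divisors `D`, all `S` and all `ε`, with `Z` empty, since the height associated with any divisor is
bounded on a set of points of bounded height, and the counting function and the logarithmic
discriminant are nonnegative.

Here `pht k z` is the height of `z` in `L`, minus the sum over all places of `L` of the minimum of
the orders of the coordinates; it is `[L : K]` times the height relative to `K`. The polynomials
`bc Ψ` are the polynomials `Ψ` regarded as polynomials over the algebraic closure of `K`, and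
`eqs V F` are the equations of `V` and the forms `F_a`. `DimLE K0 V m` means that for each point of
`V` over an extension field of `K0`, the ratios of its coordinates generate a field of transcendence
degree at most `m` over `K0`.
-/

set_option autoImplicit false

namespace Pool.Agent.Results.MP_44a246_nt.ImagesOfCovers

open FF MvPolynomial Pool.Agent.W603.LV Pool.Agent.W603.PV
open Pool.Agent.TH145.MG (DimLE)
open Pool.Agent.W602.GT (IsForm)
open Pool.Agent.Y221.FQ (Mor Onto FibresLe)
open Pool.Agent.Q58.FI (bc eqs)

theorem result {k0 k K0 K : Type} [Field k0] [Field k] [Field K0] [Field K] [IsAlgClosed k]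
    [CharZero k] [Algebra k0 k] [Algebra k K] [Algebra k0 K] [IsScalarTower k0 k K]
    [Algebra k0 K0] [Algebra K0 K] [IsScalarTower k0 K0 K] [IsFF k K]
    (hfg : ∃ S : Finset K0, IntermediateField.adjoin k0 (S : Set K0) = ⊤) {n m r t l M : ℕ}
    -- the degrees of the forms
    {A : Type} [Fintype A] {d : A → ℕ} (hd : 2 * m + 1 + r * t ≤ ∑ a, (d a + 1))
    -- a closed subset of projective space, of dimension at most `m`
    (V : Set (MvPolynomial (Fin (n + 1)) K0)) (hVh : ∀ f ∈ V, ∃ e, f.IsHomogeneous e)
    (hV : DimLE K0 V m)
    -- forms of degrees `d a` with independent coefficients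
    (F : A → MvPolynomial (Fin (n + 1)) K) (hF : ∀ a, (F a).IsHomogeneous (d a))
    (hgen : AlgebraicIndependent K0
      fun p : (a : A) × {I : Fin (n + 1) →₀ ℕ // I.degree = d a} => (F p.1).coeff p.2.1)
    -- projective varieties `W = {Ψ = 0}` and `Y = {Φ = 0}` over `K`
    {κ μ : Type} (Ψ : κ → MvPolynomial (Fin (l + 1)) K) (hΨ : ∀ e, IsForm (Ψ e))
    (Φ : μ → MvPolynomial (Fin (M + 1)) K)
    -- a morphism from `W` to the intersection
    (B : Fin (n + 1) → MvPolynomial (Fin (l + 1)) K) (hB : Mor (bc Ψ) (bc (eqs V F)) (bc B))
    -- a surjective morphism from `W` to `Y`, with fibres of at most `t` points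
    (G : Fin (M + 1) → MvPolynomial (Fin (l + 1)) K) (hG : Mor (bc Ψ) (bc Φ) (bc G))
    (hon : Onto (bc Ψ) (bc Φ) (bc G)) (hfib : FibresLe (bc Ψ) (bc G) t) :
    -- the heights of the points of `Y` of degree at most `r` are bounded
    ∃ C : ℤ, ∀ (L : Type) [Field L] [Algebra k L] [Algebra K L] [IsScalarTower k K L]
      [FiniteDimensional K L], Module.finrank K L ≤ r → ∀ z : Fin (M + 1) → L, z ≠ 0 →
      (∀ i, aeval z (Φ i) = 0) → pht k z ≤ C :=
  Pool.Agent.Q58.FI.bounded_im_K hfg hd V hVh hV hF hgen hΨ hB hG hon hfib

end Pool.Agent.Results.MP_44a246_nt.ImagesOfCovers
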