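import Mathlib
import Pool.Agent.Q4.Cov.DivThm

set_option autoImplicit false

/-!
# Perfect powers at truncated expansions

Integral points over the points `x_q = (q, ⌊θ₁ q⌋, …, ⌊θₙ q⌋)` on the cyclic covers `yᵏ = F(x)` of
affine space.
-/

namespace Pool.Agent.Results.MP_44a246_nt.PerfectPowersAtTruncations

open MvPolynomial

/-- the point `x_q = (q, ⌊θ₁ q⌋, …, ⌊θₙ q⌋)`; the variable `none` is the one of `q` -/
noncomputable def point {n : ℕ} (θ : Fin n → ℝ) (q : ℕ) : Option (Fin n) → ℤ :=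
  fun o => o.elim (q : ℤ) (fun s => ⌊θ s * q⌋)

/-- the value of the homogeneous part of highest degree at `(1, θ₁, …, θₙ)` -/
noncomputable def atInfinity {n : ℕ} (θ : Fin n → ℝ) (F : MvPolynomial (Option (Fin n)) ℤ) : ℝ :=
  aeval (fun o : Option (Fin n) => (o.elim 1 θ : ℝ)) (homogeneousComponent F.totalDegree F)

/-- Let `1, θ₁, …, θₙ` (`n ≥ 1`) be real algebraic numbers, linearly independent over `ℚ`, and
`S` a finite set of primes; `q` and `c` denote nonzero integers composed of primes of `S`. If `F`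
does not vanish at the point `(0 : 1 : θ₁ : … : θₙ)` at infinity and is not of the form `a X₀ʳ Gᵏ`
over `ℚ`, then `F(x_q) = c yᵏ` has only finitely many solutions `q`. -/
theorem result (n : ℕ) (hn : 1 ≤ n) (θ : Fin n → ℝ) (halg : ∀ s, IsAlgebraic ℚ (θ s))
    (hind : LinearIndependent ℚ (fun o : Option (Fin n) => (o.elim 1 θ : ℝ))) (S : Finset ℕ)
    (F : MvPolynomial (Option (Fin n)) ℤ) (hF : atInfinity θ F ≠ 0) (k : ℕ) (hk : 2 ≤ k)
    (hno : ¬ ∃ (a : ℚ) (r : ℕ) (G : MvPolynomial (Option (Fin n)) ℚ),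
      map (Int.castRingHom ℚ) F = C a * X none ^ r * G ^ k) :
    ∃ q₀ : ℕ, ∀ q ≥ q₀, q.primeFactors ⊆ S → ∀ c y : ℤ, c ≠ 0 → c.natAbs.primeFactors ⊆ S →
      eval (point θ q) F ≠ c * y ^ k := by
  have : Nonempty (Fin n) := ⟨⟨0, hn⟩⟩
  have hf : ∀ x : ℕ, x.primeFactors ⊆ S → x.primeFactors ⊆ S.filter Nat.Prime := fun x hx p hp =>
    Finset.mem_filter.2 ⟨hx hp, Nat.prime_of_mem_primeFactors hp⟩
  rcases Pool.Agent.Q4.Cov.perfect_powers (S.filter Nat.Prime)
    (fun p hp => (Finset.mem_filter.1 hp).2) θ halg hind F hF k (by omega) with h | ⟨q₀, h⟩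
  · exact absurd h hno
  · exact ⟨q₀, fun q hq hS c y hc hcS => h q hq (hf _ hS) c y hc (hf _ hcS)⟩

end Pool.Agent.Results.MP_44a246_nt.PerfectPowersAtTruncations
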