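import Pool.Agent.Q290.NF.Curve

/-!
# Vojta's inequality on all curves follows from the three point inequality on arbitrarily thin sets

We compare two inequalities for the points of degree at most `r`, both with truncated counting
function and with the discriminant term.

`ThinInequality r k`: on the line with the divisor `[0] + [1] + [-1]`, only for the points
`t = 1 / T(u)`, where `u` is in a number field `L` of degree at most `r` and `T` is the Chebyshev
polynomial of degree `2 ^ k`. Over a number field of degree `d` there are only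
`O(exp (5 d² B / 2 ^ k))` such points of height at most `B`.

`CurveInequality r`: the inequality of Vojta's conjecture for ALL smooth projective curves `C`
over all number fields `k` and all reduced divisors `D` on `C`. The curve is given by a finite map
`t : C → ℙ¹` over `k` which is unramified outside the fibres over `0`, `1`, `-1` and for which `D` is
contained in these fibres (by Belyi's theorem there is such a map for all `C` and `D`). Let `N` be
the degree of `t` and `A` the ring of the functions on `C` with poles only over `∞`: a Dedekind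
domain, finite over `k[t]`. If `F_j` is the ideal of the points over the `j`-th of the points
`0`, `1`, `-1` which are not points of `D`, then
`deg (K_C + D) / N = 1 - (∑_j dim (A / F_j)) / N`.
The points `P` of `C` (not over `∞`) over a number field `L` are the homomorphisms `A → L` over `k`.

The theorem: for all `r` and `k` the two are equivalent.
-/

set_option autoImplicit false

namespace Pool.Agent.Results.MP_44a246_nt.ThinSetsSuffice

open Polynomial IsDedekindDomain NumberField

/-- The absolute logarithmic height of the point `x` of the line. -/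
noncomputable def height {L : Type} [Field L] [NumberField L] (x : L) : ℝ :=
  Height.logHeight₁ x / Module.finrank ℚ L

/-- The (absolute) logarithmic discriminant `d(L) = log |disc L| / [L : ℚ]`. -/
noncomputable def logDisc (L : Type) [Field L] [NumberField L] : ℝ :=
  Real.log |(NumberField.discr L : ℝ)| / Module.finrank ℚ L

open Classical in
/-- The (absolute) truncated counting function of `[0] + [1] + [-1]` at the point `t` of the line:
the sum of `log N(w) / [L : ℚ]` over the primes `w` of `L` at which `t` has the same reduction as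
one of these three points. -/
noncomputable def counting {L : Type} [Field L] [NumberField L] (t : L) : ℝ :=
  (∑ᶠ w : HeightOneSpectrum (𝓞 L),
    if w.valuation L t < 1 ∨ w.valuation L (t - 1) < 1 ∨ w.valuation L (t + 1) < 1
    then Real.log (Ideal.absNorm w.asIdeal) else 0) / Module.finrank ℚ L

/-- The points `t = 1 / T(u)`, where `u` is in `L` and `T` is the Chebyshev polynomial of degree
`2 ^ k`. -/
def Thin (k : ℕ) (L : Type) [Field L] : Set L :=
  {t | ∃ u : L, t * (Chebyshev.T L ((2 : ℤ) ^ k)).eval u = 1}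

/-- The three point inequality with discriminant term at the points of the thin sets, over all number
fields of degree at most `r`. -/
def ThinInequality (r k : ℕ) : Prop :=
  ∀ ε : ℝ, 0 < ε → ∃ c : ℝ, ∀ (L : Type) [Field L] [NumberField L], Module.finrank ℚ L ≤ r →
    ∀ t ∈ Thin k L, t ≠ 1 → t ≠ -1 → (1 - ε) * height t ≤ counting t + logDisc L + c

/-- The points `0`, `1`, `-1` of the line. -/
def branch (k : Type) [Field k] : Fin 3 → k := ![0, 1, -1]

/-- The function `t` on the curve with the ring of functions `A`. -/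
noncomputable def coord (k A : Type) [Field k] [CommRing A] [Algebra k[X] A] : A :=
  algebraMap k[X] A X

/-- The point `P = φ` of the curve over `L` and the divisor `D` meet at the prime `w` of `L`: here
the part `D_j` of `D` over the `j`-th of the points `0`, `1`, `-1` has the equations
`y_{j 1} = ⋯ = y_{j u_j} = 0`, and `|t(P)|_w ≤ 1` and for some `j` one has `|t(P) - a_j|_w < 1`
and `|y_{j i}(P)|_w < 1` for all `i`. -/
def MeetsAt {k A L : Type} [Field k] [Field L] [NumberField L] [Algebra k L] [CommRing A]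
    [Algebra k A] [Algebra k[X] A] (u : Fin 3 → ℕ) (y : ∀ j, Fin (u j) → A) (φ : A →ₐ[k] L)
    (w : HeightOneSpectrum (𝓞 L)) : Prop :=
  w.valuation L (φ (coord k A)) ≤ 1 ∧
    ∃ j, w.valuation L (φ (coord k A) - algebraMap k L (branch k j)) < 1 ∧
      ∀ i, w.valuation L (φ (y j i)) < 1

open Classical in
/-- The (absolute) truncated counting function `N_S^{(1)}(D, P)`: the sum of `log N(w) / [L : ℚ]`
over the primes `w` of `L`, not above primes in `S`, at which `P` and `D` meet. Every such prime is
counted once. -/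
noncomputable def truncated {k A L : Type} [Field k] [NumberField k] [Field L] [NumberField L]
    [Algebra k L] [CommRing A] [Algebra k A] [Algebra k[X] A]
    (S : Finset (HeightOneSpectrum (𝓞 k))) (u : Fin 3 → ℕ) (y : ∀ j, Fin (u j) → A)
    (φ : A →ₐ[k] L) : ℝ :=
  (∑ᶠ w : HeightOneSpectrum (𝓞 L),
      if (∀ p ∈ S, w.asIdeal.comap (algebraMap (𝓞 k) (𝓞 L)) ≠ p.asIdeal) ∧ MeetsAt u y φ w
      then Real.log (Ideal.absNorm w.asIdeal) else 0) / Module.finrank ℚ L

/-- `1 - (∑_j dim (A / F_j)) / N`, where `N` is the rank of `A` over `k[t]`: the number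
`deg (K_C + D) / N` for the curve `C`. -/
noncomputable def degree (k : Type) {A : Type} [Field k] [CommRing A] [Algebra k A]
    [Algebra k[X] A] (F : Fin 3 → Ideal A) : ℝ :=
  1 - (∑ j, (Module.finrank k (A ⧸ F j) : ℝ)) / Module.finrank k[X] A

/-- The truncated Vojta inequality with discriminant term for the points of degree at most `r`
(over `ℚ`) on all curves over all number fields and all reduced divisors: for all number fields `k`,
all Dedekind domains `A`, finite over `k[t]` and containing it, all closed subsets `D_j`, given by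
`y_{j 1} = ⋯ = y_{j u_j} = 0`, and ideals `F_j ≠ 0` of `A` such that `D_j` and the zeros of `F_j`
together contain the fibre over the `j`-th of the points `0`, `1`, `-1`, all finite sets `S` of
primes of `k` and all `κ > 0` there is `c` such that all points `P = φ` over all number fields
`L ⊇ k` of degree at most `r`, with `t(P)` different from `0`, `1`, `-1`, satisfy
`(deg (K_C + D) / N - κ) h(t(P)) ≤ N_S^{(1)}(D, P) + d(L) + c`. -/
def CurveInequality (r : ℕ) : Prop :=
  ∀ (k A : Type) [Field k] [NumberField k] [CommRing A] [IsDedekindDomain A] [Algebra k A]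
    [Algebra k[X] A] [IsScalarTower k k[X] A] [Module.Finite k[X] A] [FaithfulSMul k[X] A]
    (u : Fin 3 → ℕ) (y : ∀ j, Fin (u j) → A) (F : Fin 3 → Ideal A), (∀ j, F j ≠ ⊥) →
    (∀ j i, ∀ e ∈ F j, y j i * e ∈
      (Ideal.span {coord k A - algebraMap k A (branch k j)}).radical) →
    ∀ (S : Finset (HeightOneSpectrum (𝓞 k))) (κ : ℝ), 0 < κ → ∃ c : ℝ,
      ∀ (L : Type) [Field L] [NumberField L] [Algebra k L], Module.finrank ℚ L ≤ r →
      ∀ φ : A →ₐ[k] L, (∀ j, φ (coord k A) ≠ algebraMap k L (branch k j)) →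
        (degree k F - κ) * height (φ (coord k A)) ≤ truncated S u y φ + logDisc L + c

open Pool.Agent.Q290.NF

theorem logDisc_nonneg (L : Type) [Field L] [NumberField L] :
    0 ≤ Real.log |(NumberField.discr L : ℝ)| := by
  refine Real.log_nonneg ?_
  have h5 : (1 : ℤ) ≤ |discr L| := Int.one_le_abs (discr_ne_zero L)
  have h6 : |(discr L : ℝ)| = ((|discr L| : ℤ) : ℝ) := by push_cast; rfl
  rw [h6]
  exact_mod_cast h5

theorem sum_eq {L : Type} [Field L] [NumberField L] (P : HeightOneSpectrum (𝓞 L) → Prop)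
    [∀ w, Decidable (P w)] : (∑ᶠ w : HeightOneSpectrum (𝓞 L),
      if P w then Real.log (Ideal.absNorm w.asIdeal : ℝ) else 0) = wt P := by
  unfold wt
  refine finsum_congr fun w => ?_
  by_cases h : P w
  · rw [if_pos h, ind_pos h]
    rfl
  · rw [if_neg h, ind_neg h]

theorem counting_eq {L : Type} [Field L] [NumberField L] (t : L) :
    counting t = wt (fun w => Near t w) / Module.finrank ℚ L := by
  unfold counting
  rw [sum_eq]
  rfl

theorem counting_eq' {L : Type} [Field L] [NumberField L] (t : L) :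
    wt (fun w : HeightOneSpectrum (𝓞 L) => True ∧ Near t w) = wt (fun w => Near t w) := by
  congr 1
  funext w
  rw [true_and]

theorem truncated_eq {k A L : Type} [Field k] [NumberField k] [Field L] [NumberField L]
    [Algebra k L] [CommRing A] [Algebra k A] [Algebra k[X] A]
    (S : Finset (HeightOneSpectrum (𝓞 k))) (u : Fin 3 → ℕ) (y : ∀ j, Fin (u j) → A)
    (φ : A →ₐ[k] L) : truncated S u y φ =
      wt (fun w => (∀ p ∈ S, w.asIdeal.comap (algebraMap (𝓞 k) (𝓞 L)) ≠ p.asIdeal) ∧
        MeetD (branch k) u y φ w) / Module.finrank ℚ L := by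
  unfold truncated
  rw [sum_eq]
  rfl

theorem near_iff {k L : Type} [Field k] [Field L] [NumberField L] [Algebra k L] (t : L)
    (w : HeightOneSpectrum (𝓞 L)) : Near t w ↔ NearA (branch k) t w := by
  have e0 : algebraMap k L (branch k 0) = 0 := map_zero _
  have e1 : algebraMap k L (branch k 1) = 1 := map_one _
  have e2 : algebraMap k L (branch k 2) = -1 := by
    show algebraMap k L (-1) = -1
    rw [map_neg, map_one]
  constructor
  · rintro (h | h | h)
    · refine ⟨h.le, 0, ?_⟩
      rw [e0, sub_zero]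
      exact h
    · refine ⟨?_, 1, ?_⟩
      · have h1 : t = (t - 1) + 1 := by ring
        rw [h1]
        exact Valuation.map_add_le _ h.le (by rw [map_one])
      · rw [e1]
        exact h
    · refine ⟨?_, 2, ?_⟩
      · have h1 : t = (t + 1) - 1 := by ring
        rw [h1]
        exact Valuation.map_sub_le _ h.le (by rw [map_one])
      · rw [e2, sub_neg_eq_add]
        exact h
  · rintro ⟨-, j, hj⟩
    fin_cases j
    · left
      rw [show ((⟨0, by norm_num⟩ : Fin 3)) = 0 from rfl, e0, sub_zero] at hj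
      exact hj
    · right; left
      rw [show ((⟨1, by norm_num⟩ : Fin 3)) = 1 from rfl, e1] at hj
      exact hj
    · right; right
      rw [show ((⟨2, by norm_num⟩ : Fin 3)) = 2 from rfl, e2, sub_neg_eq_add] at hj
      exact hj

theorem thin_eq {k : ℕ} {L : Type} [Field L] {t : L} :
    t ∈ Thin k L ↔ t ≠ 0 ∧ ∃ u : L, t = (tv k u)⁻¹ := by
  constructor
  · rintro ⟨u, hu⟩
    exact ⟨left_ne_zero_of_mul_eq_one hu, u, eq_inv_of_mul_eq_one_left hu⟩
  · rintro ⟨h0, u, hu⟩
    refine ⟨u, ?_⟩
    have h1 : tv k u ≠ 0 := fun h => h0 (by rw [hu, h, inv_zero])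
    rw [hu]
    exact inv_mul_cancel₀ h1

theorem to_curve {r k : ℕ} (h : ThinInequality r k) : CurveInequality r := by
  intro K A _ _ _ _ _ _ _ _ _ u y F hF hy S κ hκ
  obtain ⟨c, hc⟩ := h (κ / 2 / 2 ^ k) (by positivity)
  obtain ⟨C, hC, hcrv⟩ := curve_key K A (by norm_num : 1 ≤ 3) (branch K) u y F hF hy S (κ / 2)
    (by positivity)
  refine ⟨(max c 0 + k * (3 * Real.log 2)) + C, ?_⟩
  intro L _ _ _ hL φ hφ
  obtain ⟨t, ht⟩ : ∃ t : L, t = φ (coord K A) := ⟨_, rfl⟩
  obtain ⟨d, hd⟩ : ∃ d : ℝ, d = (Module.finrank ℚ L : ℝ) := ⟨_, rfl⟩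
  have hd0 : 0 < d := by rw [hd]; exact_mod_cast Module.finrank_pos
  have h1 := hcrv L φ hφ
  have e0 : φ (algebraMap K[X] A X) = t := ht.symm
  rw [e0] at h1
  rw [← ht] at hφ ⊢
  have e1 : algebraMap K L (branch K 1) = 1 := map_one _
  have e2 : algebraMap K L (branch K 2) = -1 := by
    show algebraMap K L (-1) = -1
    rw [map_neg, map_one]
  have hgen : Gen t := by
    refine ⟨?_, ?_, ?_⟩
    · have := hφ 0
      rwa [show algebraMap K L (branch K 0) = 0 from map_zero _] at this
    · have := hφ 1
      rwa [e1] at this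
    · have := hφ 2
      rwa [e2] at this
  have hthin : ∀ v : L, Gen (tv k v)⁻¹ → (1 - κ / 2 / 2 ^ k) * Height.logHeight₁ (tv k v)⁻¹ ≤
      wt (fun w => True ∧ Near (tv k v)⁻¹ w) + Real.log |(NumberField.discr L : ℝ)| +
        Module.finrank ℚ L * max c 0 := by
    intro v hv
    have h2 := hc L hL (tv k v)⁻¹ (thin_eq.2 ⟨hv.1, v, rfl⟩) hv.2.1 hv.2.2
    rw [counting_eq] at h2
    unfold height logDisc at h2
    rw [counting_eq', ← hd]
    rw [← hd] at h2
    have h3 : (1 - κ / 2 / 2 ^ k) * (Height.logHeight₁ (tv k v)⁻¹ / d) * d ≤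
        (wt (fun w => Near (tv k v)⁻¹ w) / d + Real.log |(NumberField.discr L : ℝ)| / d + c) * d :=
      mul_le_mul_of_nonneg_right h2 hd0.le
    have h4 : (1 - κ / 2 / 2 ^ k) * (Height.logHeight₁ (tv k v)⁻¹ / d) * d =
        (1 - κ / 2 / 2 ^ k) * Height.logHeight₁ (tv k v)⁻¹ := by field_simp
    have h5 : (wt (fun w => Near (tv k v)⁻¹ w) / d + Real.log |(NumberField.discr L : ℝ)| / d + c) *
        d = wt (fun w => Near (tv k v)⁻¹ w) + Real.log |(NumberField.discr L : ℝ)| + d * c := by
      field_simp
    rw [h4, h5] at h3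
    have h6 : d * c ≤ d * max c 0 := mul_le_mul_of_nonneg_left (le_max_left _ _) hd0.le
    linarith
  have h2 := down (K := L) (fun _ => True) (logDisc_nonneg L) k (le_max_right c 0)
    (by positivity : (0 : ℝ) ≤ κ / 2 / 2 ^ k) hthin t⁻¹ (by rw [inv_inv]; exact hgen)
  rw [inv_inv, counting_eq', ← hd] at h2
  have e3 : (2 : ℝ) ^ k * (κ / 2 / 2 ^ k) = κ / 2 := by
    have : (2 : ℝ) ^ k ≠ 0 := by positivity
    field_simp
  rw [e3] at h2
  have e4 : wt (fun w : HeightOneSpectrum (𝓞 L) => Near t w) =
      wt (fun w => NearA (branch K) t w) := by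
    congr 1
    funext w
    exact propext (near_iff t w)
  rw [e4] at h2
  rw [truncated_eq]
  unfold height logDisc degree
  rw [← hd] at h1 ⊢
  obtain ⟨W, hW⟩ : ∃ W : ℝ, W = wt (fun w =>
    (∀ p ∈ S, w.asIdeal.comap (algebraMap (𝓞 K) (𝓞 L)) ≠ p.asIdeal) ∧
      MeetD (branch K) u y φ w) := ⟨_, rfl⟩
  rw [← hW] at h1 ⊢
  obtain ⟨H, hH⟩ : ∃ H : ℝ, H = Height.logHeight₁ t := ⟨_, rfl⟩
  obtain ⟨D, hD⟩ : ∃ D : ℝ, D = Real.log |(NumberField.discr L : ℝ)| := ⟨_, rfl⟩
  obtain ⟨R, hR⟩ : ∃ R : ℝ, R = (∑ j, (Module.finrank K (A ⧸ F j) : ℝ)) /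
    Module.finrank K[X] A := ⟨_, rfl⟩
  rw [← hH, ← hR] at h1
  rw [← hH, ← hD] at h2
  rw [← hH, ← hD, ← hR]
  have h7 : (1 - R - κ) * H ≤ W + D + d * ((max c 0 + k * (3 * Real.log 2)) + C) := by
    linarith
  have h8 : (1 - R - κ) * H / d ≤ (W + D + d * ((max c 0 + k * (3 * Real.log 2)) + C)) / d :=
    div_le_div_of_nonneg_right h7 hd0.le
  refine le_trans (le_of_eq ?_) (h8.trans (le_of_eq ?_))
  · ring
  · field_simp

theorem of_curve {r k : ℕ} (h : CurveInequality r) : ThinInequality r k := by
  intro ε hε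
  obtain ⟨c, hc⟩ := h ℚ ℚ[X] (fun _ => 1) (fun j _ => X - C (branch ℚ j)) (fun _ => ⊤)
    (fun j => top_ne_bot) (by
      intro j i e _
      refine Ideal.le_radical (Ideal.mul_mem_right _ _ ?_)
      exact Ideal.subset_span rfl) ∅ ε hε
  refine ⟨c, ?_⟩
  intro L _ _ hL t ht ht1 ht2
  have ht0 := (thin_eq.1 ht).1
  have e1 : (aeval t : ℚ[X] →ₐ[ℚ] L) (coord ℚ ℚ[X]) = t := aeval_X t
  have h1 := hc L hL (aeval t) (by
    intro j
    rw [e1]
    fin_cases j
    · exact (map_zero (algebraMap ℚ L)).symm ▸ ht0
    · exact (map_one (algebraMap ℚ L)).symm ▸ ht1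
    · have : algebraMap ℚ L (-1) = -1 := by rw [map_neg, map_one]
      exact this.symm ▸ ht2)
  rw [e1] at h1
  have e2 : degree ℚ (fun _ : Fin 3 => (⊤ : Ideal ℚ[X])) = 1 := by
    unfold degree
    have : Subsingleton (ℚ[X] ⧸ (⊤ : Ideal ℚ[X])) := Ideal.Quotient.subsingleton_iff.2 rfl
    simp [Module.finrank_zero_of_subsingleton]
  rw [e2] at h1
  have e3 : truncated (∅ : Finset (HeightOneSpectrum (𝓞 ℚ))) (fun _ => 1)
      (fun (j : Fin 3) (_ : Fin 1) => X - C (branch ℚ j)) (aeval t : ℚ[X] →ₐ[ℚ] L) =
      counting t := by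
    rw [truncated_eq, counting_eq]
    congr 2
    funext w
    rw [propext (near_iff (k := ℚ) t w)]
    unfold MeetD NearA
    have e4 : (aeval t : ℚ[X] →ₐ[ℚ] L) (algebraMap ℚ[X] ℚ[X] X) = t := aeval_X t
    rw [e4]
    refine propext ⟨?_, ?_⟩
    · rintro ⟨-, h2, j, h3, -⟩
      exact ⟨h2, j, h3⟩
    · rintro ⟨h2, j, h3⟩
      refine ⟨fun p hp => absurd hp (Finset.notMem_empty p), h2, j, h3, fun i => ?_⟩
      rw [map_sub, aeval_X, aeval_C]
      exact h3
  rw [e3] at h1
  exact h1

/-- **Thin sets suffice.**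
(1) Let `L` be a number field of degree `d`. For all `k` there are at most
`50 ^ (5 d) exp (5 d² (B / 2 ^ k + 2 log 2))` points in the thin set `Thin k L` of height at most
`B`, for all `B ≥ 0`.
(2) For all `r` and `k` the three point inequality with discriminant term at the points of the thin
sets `Thin k L` for all number fields `L` of degree at most `r` is equivalent to Vojta's inequality
with truncated counting function and discriminant term for the points of degree at most `r` on all
curves over all number fields, all reduced divisors and all `S`. -/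
theorem result :
    (∀ (L : Type) [Field L] [NumberField L] (k : ℕ) (B : ℝ), 0 ≤ B →
      {t : L | t ∈ Thin k L ∧ height t ≤ B}.Finite ∧
      ({t : L | t ∈ Thin k L ∧ height t ≤ B}.ncard : ℝ) ≤
        50 ^ (5 * Module.finrank ℚ L) * Real.exp (5 * (Module.finrank ℚ L : ℝ) ^ 2 *
          (B / 2 ^ k + 2 * Real.log 2))) ∧
    ∀ r k : ℕ, ThinInequality r k ↔ CurveInequality r := by
  refine ⟨fun L _ _ k B hB => ?_, fun r k => ⟨to_curve, of_curve⟩⟩
  obtain ⟨d, hd⟩ : ∃ d : ℝ, d = (Module.finrank ℚ L : ℝ) := ⟨_, rfl⟩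
  have hd0 : 0 < d := by rw [hd]; exact_mod_cast Module.finrank_pos
  have hiff : ∀ t : L, height t ≤ B ↔ Height.logHeight₁ t ≤ d * B := by
    intro t
    unfold height
    rw [← hd, div_le_iff₀ hd0, mul_comm]
  have hfin : {t : L | Height.logHeight₁ t ≤ d * B}.Finite :=
    NumberField.finite_setOfPred_logHeight₁_le L _
  refine ⟨hfin.subset fun t ht => (hiff t).1 ht.2, ?_⟩
  have h1 := sparse (K := L) k (mul_nonneg hd0.le hB)
  have h2 : {t : L | t ∈ Thin k L ∧ height t ≤ B}.ncard ≤
      {t : L | (∃ u : L, t = (tv k u)⁻¹) ∧ Height.logHeight₁ t ≤ d * B}.ncard := by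
    refine Set.ncard_le_ncard ?_ (hfin.subset fun t ht => ht.2)
    rintro t ⟨h3, h4⟩
    exact ⟨(thin_eq.1 h3).2, (hiff t).1 h4⟩
  have h3 : ({t : L | t ∈ Thin k L ∧ height t ≤ B}.ncard : ℝ) ≤
      {t : L | (∃ u : L, t = (tv k u)⁻¹) ∧ Height.logHeight₁ t ≤ d * B}.ncard := by
    exact_mod_cast h2
  refine h3.trans (h1.trans (le_of_eq ?_))
  rw [← hd]
  congr 2
  ring

end Pool.Agent.Results.MP_44a246_nt.ThinSetsSuffice
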